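import Pool.Agent.Q82.TQ.Num

set_option autoImplicit false

/-!
# Strong abundance for nef classes on quotients of complex tori

Let `X = V / Γ` be the quotient of a complex torus of dimension `d` by any finite group. Each nef rational
class `H` of type `(1, 1)` on `X` is the pullback of an ample rational class `HB` under a fibration
`g : X → B` onto a torus quotient, and the fibration is unique. There is `m` which depends only on `d`
such that `m k HB` is the class of a line bundle on `B` if `k H` is the class of a line bundle on `X`.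

The proof: after twisting a line bundle `L` of class `k H` with a flat one, its character on the lattice
vectors in the kernel of `H` is torsion of order dividing the order `N` of the group of the linear
parts. Then the stabilisers of the fibres of the linear projection act on `L ^ (N ^ 2)` trivially, so
that it descends. The kernel of `H` determines the fibration, and `N` is bounded by Minkowski's lemma.

`latt`, `IsTorusQuotient` and `LineBundle` are defined in `Pool.Agent.W594.SYZ.Defs2`; `IsHermitian`,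
`IsChernForm`, `IsNefForm` and `IsPositiveForm` in `Pool.Agent.W594.SYZ.TQDefs`; `IsFibration` in
`Pool.Agent.TH735.AQ.Defs`; `cj` (the conjugate of an affine transformation by a linear isomorphism) in
`Pool.Agent.Q82.TQ.Real2`.
-/

namespace Pool.Agent.Results.MP_cfacaa_ag.TorusQuotientStrongAbundance

open Pool.Agent.W594.SYZ2 Pool.Agent.W594.SYZ2.TQ Pool.Agent.TH735.AQ Pool.Agent.Q82.TQ

universe u

/-- `H` is the pullback of the ample class `HB` on `B = W / Δ` under the fibration given by `π`. -/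
structure IsPullbackOfAmple {V W : Type*} [NormedAddCommGroup V] [NormedSpace ℂ V]
    [NormedAddCommGroup W] [NormedSpace ℂ W] (Γ : Subgroup (V ≃ᵃ[ℂ] V)) (H : V → V → ℂ)
    (Δ : Subgroup (W ≃ᵃ[ℂ] W)) (π : V →ₗ[ℂ] W) (HB : W → W → ℂ) : Prop where
  fib : IsFibration Γ Δ π
  herm : IsHermitian HB
  ample : IsPositiveForm HB
  pull : ∀ v w, H v w = HB (π v) (π w)

/-- For each `d` there is `m ≥ 1` such that for all torus quotients `X = V / Γ` of dimension `d`, all
nef forms `H` and all `k ≥ 1` such that `k H` is the Chern form of a line bundle `L` on `X`: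
* there are a fibration `X → B = W / Δ` onto a torus quotient, `W = ℂ ^ n`, and an ample class `HB` on
  `B` with pullback `H`, such that `m k HB` is the Chern form of a line bundle on `B`;
* for any other fibration `X → B' = W' / Δ'`, onto a torus quotient, given by a linear map `π'`, and
  ample class `HB'` on `B'` with pullback `H`, there is a linear isomorphism `φ : W → W'` which carries
  `Δ` into `Δ'` and `HB` into `HB'`, and is compatible with the projections. -/
theorem result (d : ℕ) : ∃ m : ℕ, 0 < m ∧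
    ∀ {V : Type u} [NormedAddCommGroup V] [NormedSpace ℂ V] [FiniteDimensional ℂ V],
      Module.finrank ℂ V = d → ∀ (Γ : Subgroup (V ≃ᵃ[ℂ] V)), IsTorusQuotient Γ →
      ∀ (H : V → V → ℂ) (k : ℕ) (L : LineBundle Γ), 1 ≤ k →
        IsChernForm L (fun v w => (k : ℂ) * H v w) → IsNefForm H →
        ∃ (n : ℕ) (Δ : Subgroup ((Fin n → ℂ) ≃ᵃ[ℂ] (Fin n → ℂ))) (π : V →ₗ[ℂ] (Fin n → ℂ))
          (HB : (Fin n → ℂ) → (Fin n → ℂ) → ℂ), IsPullbackOfAmple Γ H Δ π HB ∧
          (∃ A : LineBundle Δ, IsChernForm A (fun x y => ((m * k : ℕ) : ℂ) * HB x y)) ∧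
          ∀ (n' : ℕ) (Δ' : Subgroup ((Fin n' → ℂ) ≃ᵃ[ℂ] (Fin n' → ℂ)))
            (π' : V →ₗ[ℂ] (Fin n' → ℂ)) (HB' : (Fin n' → ℂ) → (Fin n' → ℂ) → ℂ),
            IsPullbackOfAmple Γ H Δ' π' HB' →
              ∃ φ : (Fin n → ℂ) ≃ₗ[ℂ] (Fin n' → ℂ), (∀ v, φ (π v) = π' v) ∧
                (∀ x y, HB x y = HB' (φ x) (φ y)) ∧
                ∀ δ : (Fin n → ℂ) ≃ᵃ[ℂ] (Fin n → ℂ), δ ∈ Δ ↔ cj φ δ ∈ Δ' := by
  refine ⟨(Nat.factorial (3 ^ ((2 * d) ^ 2))) ^ 2, by positivity, ?_⟩
  intro V _ _ _ hd Γ hΓ H k L hk hc hn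
  have hdvd : Nat.card (Lin Γ) ^ 2 ∣ (Nat.factorial (3 ^ ((2 * d) ^ 2))) ^ 2 := by
    refine pow_dvd_pow_of_dvd ?_ 2
    have h1 := card_le hΓ
    rw [hd] at h1
    exact Nat.dvd_factorial (Pool.Agent.Y167.card_pos hΓ) h1
  obtain ⟨n, Δ, π, HB, A, h1, h2, h3, h4, h5⟩ := exists_base_rat hΓ hk hc hn hdvd
  refine ⟨n, Δ, π, HB, ⟨h1, h2, h3, h5⟩, ⟨A, h4⟩, ?_⟩
  intro n' Δ' π' HB' h'
  exact fib_unique h1 h'.fib h2 h'.herm h3 h'.ample h5 h'.pull

end Pool.Agent.Results.MP_cfacaa_ag.TorusQuotientStrongAbundance
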